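import Pool.Agent.H90.HW.Main2

/-!
Parts (a)-(d) of the problem, for all degrees `i` and all projective schemes of dimension at most
`d`, are equivalent to the same for the determinantal hypersurfaces in `ℙ^(d+1)`, for the linear
sections of codimension `d + 2` of Segre varieties, and for smooth affine cubic hypersurfaces.

`PartsIn G N` says that the numbers of points `N p k` over the fields with `p ^ k` elements are
sums of parts which are pure of integral weights, and that for every `w` the `L`-function of the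
part of weight `w` belongs to the group `G w`.  For a smooth projective scheme over `ℤ[1/N]` the
part of weight `w` has the `L`-function `L(w; X, s) ^ ((-1) ^ w)`, by Deligne.

Examples of families `G` are `merFamily` (meromorphic continuation, zeros and poles in prescribed
sets) and `hwFamily` (the same with a functional equation under `s ↦ w + 1 - s`), both in
`Pool.Agent.H90.HW.Families`.
-/

namespace Pool.Agent.H94.HWD.Old

open Pool.Agent.H73.Zeta Pool.Agent.H90.HW

/-- **Theorem.**  Let `d` be a natural number and let `G` be a family of groups of functions, one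
for every weight, compatible with shifts.  The following are equivalent.

(A) For every closed subscheme of a projective space over `ℤ` whose fibre over `ℚ` has dimension at
most `d`, the `L`-functions of the parts of all weights `w` belong to `G w`, after the removal of
the primes dividing any multiple `M` of a suitable number.

(B) The same holds for the hypersurfaces `det (x_0 A_0 + ... + x_(d+1) A_(d+1)) = 0` in `ℙ^(d+1)`,
where the `A_i` are square matrices, of any size, with entries in `{-1, 0, 1}`.

(C) The same holds for the linear sections of the Segre varieties `ℙ^(a-1) × ℙ^(b-1)`, for all `a`,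
`b`, cut out by `d + 2` bilinear forms with coefficients in `{-1, 0, 1}`.

(D) The same holds for the affine cubic hypersurfaces
`x_0 B_0 (y, z) + ... + x_(d+1) B_(d+1) (y, z) = 1`, which are smooth over `ℤ`, for all such
bilinear forms. -/
theorem main (G : Family) (d : ℕ) : List.TFAE [
    (∀ (n : ℕ) (F : Finset (MvPolynomial (Fin (n + 1)) ℤ)),
      (∀ f ∈ F, ∃ e : ℕ, f.IsHomogeneous e) → DimLE F d →
      ∃ M₀ : ℕ, 0 < M₀ ∧ ∀ M : ℕ, 0 < M → M₀ ∣ M → PartsIn G (projCount F M)),
    (∀ (a : ℕ) (T : Fin (d + 2) → Fin a → Fin a → ℤ),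
      (∀ i j l, T i j l = -1 ∨ T i j l = 0 ∨ T i j l = 1) →
      ∃ M₀ : ℕ, 0 < M₀ ∧ ∀ M : ℕ, 0 < M → M₀ ∣ M → PartsIn G (restr M (detCount T))),
    (∀ (a b : ℕ) (T : Fin (d + 2) → Fin a → Fin b → ℤ),
      (∀ i j l, T i j l = -1 ∨ T i j l = 0 ∨ T i j l = 1) →
      ∃ M₀ : ℕ, 0 < M₀ ∧ ∀ M : ℕ, 0 < M → M₀ ∣ M → PartsIn G (restr M (segreCount T))),
    (∀ (a b : ℕ) (T : Fin (d + 2) → Fin a → Fin b → ℤ),
      (∀ i j l, T i j l = -1 ∨ T i j l = 0 ∨ T i j l = 1) →
      ∃ M₀ : ℕ, 0 < M₀ ∧ ∀ M : ℕ, 0 < M → M₀ ∣ M → PartsIn G (restr M (cubicCount T)))] := by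
  have h1 := dimIn_iff_detIn (closed_parts G) d
  have h2 := dimIn_iff_segreIn (closed_parts G) d
  have h3 := dimIn_iff_cubicIn (closed_parts G) d
  have h0 : DimIn (Ev (PartsIn G)) d ↔ ∀ (n : ℕ) (F : Finset (MvPolynomial (Fin (n + 1)) ℤ)),
      (∀ f ∈ F, ∃ e : ℕ, f.IsHomogeneous e) → DimLE F d →
      ∃ M₀ : ℕ, 0 < M₀ ∧ ∀ M : ℕ, 0 < M → M₀ ∣ M → PartsIn G (projCount F M) := by
    unfold DimIn Ev
    simp only [restr_projCount]
  rw [← h0]
  tfae_have 1 ↔ 2 := h1
  tfae_have 1 ↔ 3 := h2
  tfae_have 1 ↔ 4 := h3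
  tfae_finish

end Pool.Agent.H94.HWD.Old
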