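import Pool.Agent.H94.HWD.Defs
import Pool.Agent.H94.HWD.Old

namespace Pool.Agent.H94.HWD

open Pool.Agent.H73.Zeta

/-- The family in the form of the older files. -/
def toOld (G : Family) : Pool.Agent.H90.HW.Family where
  mem := G.mem
  one := G.one
  mul := G.mul
  inv := G.inv
  shift := G.shift
  congr := G.congr

theorem partsIn_iff (G : Family) (N : Nat.Primes → ℕ → ℤ) :
    PartsIn G N ↔ Pool.Agent.H90.HW.PartsIn (toOld G) N := Iff.rfl

theorem dimLE_iff {n : ℕ} (F : Finset (MvPolynomial (Fin (n + 1)) ℤ)) (d : ℕ) :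
    DimLE F d ↔ Pool.Agent.H90.HW.DimLE F d := by
  unfold DimLE Pool.Agent.H90.HW.DimLE Pool.Agent.H90.HW.idealQ
  refine forall_congr' fun j => ?_
  have e : Ideal.span ({MvPolynomial.X j - 1} ∪
      {g | ∃ f ∈ F, g = MvPolynomial.map (Int.castRingHom ℚ) f}) =
      Ideal.span ((MvPolynomial.map (Int.castRingHom ℚ)) ''
        (F : Set (MvPolynomial (Fin (n + 1)) ℤ))) ⊔
      Ideal.span {(MvPolynomial.X j - 1 : MvPolynomial (Fin (n + 1)) ℚ)} := by
    rw [Ideal.span_union, sup_comm]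
    have : {g | ∃ f ∈ F, g = MvPolynomial.map (Int.castRingHom ℚ) f} =
        (MvPolynomial.map (Int.castRingHom ℚ)) '' (F : Set (MvPolynomial (Fin (n + 1)) ℤ)) := by
      ext g
      constructor
      · rintro ⟨f, hf, rfl⟩
        exact ⟨f, hf, rfl⟩
      · rintro ⟨f, hf, rfl⟩
        exact ⟨f, hf, rfl⟩
    rw [this]
  rw [e]

theorem away_proj {n : ℕ} (F : Finset (MvPolynomial (Fin (n + 1)) ℤ)) (M : ℕ) :
    away (projNum F) M = projCount F M := by
  funext p k
  unfold away projNum projCount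
  rfl

theorem away_det {n a : ℕ} (T : Fin n → Fin a → Fin a → ℤ) (M : ℕ) :
    away (detNum T) M = Pool.Agent.H90.HW.restr M (Pool.Agent.H90.HW.detCount T) := by
  funext p k
  unfold away detNum Pool.Agent.H90.HW.restr Pool.Agent.H90.HW.detCount
  rfl

theorem away_segre {n a b : ℕ} (T : Fin n → Fin a → Fin b → ℤ) (M : ℕ) :
    away (segreNum T) M = Pool.Agent.H90.HW.restr M (Pool.Agent.H90.HW.segreCount T) := by
  funext p k
  unfold away segreNum Pool.Agent.H90.HW.restr Pool.Agent.H90.HW.segreCount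
  rfl

theorem away_cubic {n a b : ℕ} (T : Fin n → Fin a → Fin b → ℤ) (M : ℕ) :
    away (cubicNum T) M = Pool.Agent.H90.HW.restr M (Pool.Agent.H90.HW.cubicCount T) := by
  funext p k
  unfold away cubicNum Pool.Agent.H90.HW.restr Pool.Agent.H90.HW.cubicCount
  rfl

theorem main (G : Family) (d : ℕ) : List.TFAE [
    (∀ (n : ℕ) (F : Finset (MvPolynomial (Fin (n + 1)) ℤ)),
      (∀ f ∈ F, ∃ e : ℕ, f.IsHomogeneous e) → DimLE F d → In G (projNum F)),
    (∀ (a : ℕ) (T : Fin (d + 2) → Fin a → Fin a → ℤ), Small T → In G (detNum T)),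
    (∀ (a b : ℕ) (T : Fin (d + 2) → Fin a → Fin b → ℤ), Small T → In G (segreNum T)),
    (∀ (a b : ℕ) (T : Fin (d + 2) → Fin a → Fin b → ℤ), Small T → In G (cubicNum T))] := by
  have h := Old.main (toOld G) d
  unfold In Small
  simp only [away_proj, away_det, away_segre, away_cubic, dimLE_iff, partsIn_iff]
  exact h

end Pool.Agent.H94.HWD
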