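import Mathlib

/-!
The parts of given weight of a family of point counts, their `L`-functions, and the counts of
points of the schemes in the reduction to linear sections of Segre varieties: definitions only.
-/

namespace Pool.Agent.H94.HWD

open scoped LinearAlgebra.Projectivization

/-- A family of groups of functions, `G w` for every integer `w` (the weight), which are
multiplicative groups, depend only on the values of the functions in some right half plane, and
are compatible with the shift by one, which raises the weight by two. -/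
structure Family where
  /-- Membership of a function in the group of weight `w`. -/
  mem : ℤ → (ℂ → ℂ) → Prop
  one : ∀ w, mem w (fun _ => 1)
  mul : ∀ w F F', mem w F → mem w F' → mem w (fun s => F s * F' s)
  inv : ∀ w F, mem w F → mem w (fun s => (F s)⁻¹)
  shift : ∀ w F, mem (w + 2) (fun s => F (s - 1)) ↔ mem w F
  congr : ∀ (w : ℤ) (F F' : ℂ → ℂ) (c : ℝ), (∀ s : ℂ, c < s.re → F s = F' s) →
    mem w F → mem w F'

open scoped Classical in
/-- The `L`-function of the part of weight `w`.  For every prime `p` let `μ p` be a finitely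
supported function on `ℂ` with integral values, to be thought of as a virtual set of eigenvalues of
Frobenius with multiplicities.  The function is the Euler product, over all primes `p`, of the
finite products of the factors `(1 - α p ^ (-s)) ^ (- μ p α)` over all `α` of absolute value
`p ^ (w / 2)`. -/
noncomputable def Lfun (μ : Nat.Primes → ℂ →₀ ℤ) (w : ℤ) (s : ℂ) : ℂ :=
  ∏' p : Nat.Primes, (μ p).prod fun α c =>
    if ‖α‖ = ((p : ℕ) : ℝ) ^ ((w : ℝ) / 2) then (1 - α * ((p : ℕ) : ℂ) ^ (-s)) ^ (-c) else 1

/-- The family of counts `N` is a sum of parts which are pure of integral weights, of bounded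
size, and for every `w` the `L`-function of the part of weight `w` belongs to the group `G w`. -/
def PartsIn (G : Family) (N : Nat.Primes → ℕ → ℤ) : Prop :=
  ∃ (μ : Nat.Primes → ℂ →₀ ℤ) (B : ℕ),
    (∀ (p : Nat.Primes) (k : ℕ), k ≠ 0 → (N p k : ℂ) = (μ p).sum fun α c => (c : ℂ) * α ^ k) ∧
    (∀ (p : Nat.Primes) (α : ℂ), μ p α ≠ 0 →
      ∃ w : ℤ, |w| ≤ B ∧ ‖α‖ = ((p : ℕ) : ℝ) ^ ((w : ℝ) / 2)) ∧
    (∀ p : Nat.Primes, ((μ p).sum fun _ c => |c|) ≤ B) ∧
    ∀ w : ℤ, G.mem w (Lfun μ w)

instance fact (p : Nat.Primes) : Fact (p : ℕ).Prime := ⟨p.2⟩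

/-- The numbers of points `N K` over the fields `K` with `p ^ k` elements, after the removal of the
primes dividing `M`. -/
noncomputable def away (N : (K : Type) → [Field K] → ℕ) (M : ℕ) (p : Nat.Primes) (k : ℕ) : ℤ :=
  if (p : ℕ) ∣ M then 0 else (N (GaloisField p k) : ℤ)

/-- The `L`-functions of the parts of all weights belong to the groups in the family, after the
removal of the primes dividing any multiple `M` of a suitable number. -/
def In (G : Family) (N : (K : Type) → [Field K] → ℕ) : Prop :=
  ∃ M₀ : ℕ, 0 < M₀ ∧ ∀ M : ℕ, 0 < M → M₀ ∣ M → PartsIn G (away N M)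

/-- The closed subscheme of the projective space over `ℚ` defined by `F` has dimension at most `d`:
the coordinate rings of its intersections with the charts `X j = 1` have Krull dimension at
most `d`. -/
def DimLE {n : ℕ} (F : Finset (MvPolynomial (Fin (n + 1)) ℤ)) (d : ℕ) : Prop :=
  ∀ j : Fin (n + 1), ringKrullDim (MvPolynomial (Fin (n + 1)) ℚ ⧸
    Ideal.span ({MvPolynomial.X j - 1} ∪
      {g | ∃ f ∈ F, g = MvPolynomial.map (Int.castRingHom ℚ) f})) ≤ d

/-- The number of points of the projective scheme defined by `F`. -/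
noncomputable def projNum {n : ℕ} (F : Finset (MvPolynomial (Fin (n + 1)) ℤ))
    (K : Type) [Field K] : ℕ :=
  Nat.card {x : ℙ K (Fin (n + 1) → K) // ∀ f ∈ F, MvPolynomial.aeval x.rep f = 0}

/-- The number of points of the determinantal hypersurface. -/
noncomputable def detNum {n a : ℕ} (T : Fin n → Fin a → Fin a → ℤ) (K : Type) [Field K] : ℕ :=
  Nat.card {x : ℙ K (Fin n → K) //
    (Matrix.of fun j l => ∑ i, (T i j l : K) * x.rep i).det = 0}

/-- The number of points of the linear section of the Segre variety `ℙ^(a-1) × ℙ^(b-1)` cut out by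
the bilinear forms with coefficients `T i j l`, one form for every `i`. -/
noncomputable def segreNum {n a b : ℕ} (T : Fin n → Fin a → Fin b → ℤ)
    (K : Type) [Field K] : ℕ :=
  Nat.card {z : ℙ K (Fin a → K) × ℙ K (Fin b → K) //
    ∀ i, ∑ j, ∑ l, (T i j l : K) * z.1.rep j * z.2.rep l = 0}

/-- The number of points of the affine cubic `∑ i, x_i B_i (y, z) = 1`. -/
noncomputable def cubicNum {n a b : ℕ} (T : Fin n → Fin a → Fin b → ℤ)
    (K : Type) [Field K] : ℕ :=
  Nat.card {z : (Fin n → K) × (Fin a → K) × (Fin b → K) //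
    ∑ i, ∑ j, ∑ l, (T i j l : K) * z.1 i * z.2.1 j * z.2.2 l = 1}

/-- All coefficients are `-1`, `0` or `1`. -/
def Small {n a b : ℕ} (T : Fin n → Fin a → Fin b → ℤ) : Prop :=
  ∀ i j l, T i j l = -1 ∨ T i j l = 0 ∨ T i j l = 1

end Pool.Agent.H94.HWD
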